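import Pool.Agent.Helper59_LT.Tools

/-!
# LT, module MAT: the integral block matrix (helper59)
-/

set_option autoImplicit false

namespace Pool.Agent.LT59

open Matrix Pool.Agent.LT

section

variable {κ ν : Type} [Fintype κ] [DecidableEq κ] [Fintype ν] [DecidableEq ν]

/-- The factorisation of a block matrix. -/
theorem block_fac (m : Matrix κ κ ℝ) (B : Matrix κ ν ℝ) (H : Matrix ν κ ℝ) (A : Matrix ν ν ℝ)
    (hm : m.det ≠ 0) :
    fromBlocks m B (-H) (A - H * m⁻¹ * B) =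
      fromBlocks (1 : Matrix κ κ ℝ) 0 (-(H * m⁻¹)) 1 * fromBlocks m 0 0 A *
        fromBlocks (1 : Matrix κ κ ℝ) (m⁻¹ * B) 0 1 := by
  have hu : IsUnit m.det := isUnit_iff_ne_zero.2 hm
  rw [fromBlocks_multiply, fromBlocks_multiply]
  simp only [Matrix.one_mul, Matrix.mul_one, Matrix.zero_mul, Matrix.mul_zero, add_zero, zero_add,
    Matrix.neg_mul]
  have h1 : m * (m⁻¹ * B) = B := by rw [← Matrix.mul_assoc, mul_nonsing_inv _ hu, Matrix.one_mul]
  have h2 : H * m⁻¹ * m = H := by rw [Matrix.mul_assoc, nonsing_inv_mul _ hu, Matrix.mul_one]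
  have h3 : H * m⁻¹ * m * (m⁻¹ * B) = H * m⁻¹ * B := by rw [h2, Matrix.mul_assoc]
  rw [h1, h2, ← h3, h2]
  congr 1
  abel

theorem block_det (m : Matrix κ κ ℝ) (B : Matrix κ ν ℝ) (H : Matrix ν κ ℝ) (A : Matrix ν ν ℝ)
    (hm : m.det ≠ 0) :
    (fromBlocks m B (-H) (A - H * m⁻¹ * B)).det = m.det * A.det := by
  rw [block_fac m B H A hm, det_mul, det_mul, det_fromBlocks_zero₁₂, det_fromBlocks_zero₁₂,
    det_fromBlocks_zero₂₁]
  simp

theorem block_inv (m : Matrix κ κ ℝ) (B : Matrix κ ν ℝ) (H : Matrix ν κ ℝ) (A A' : Matrix ν ν ℝ)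
    (hm : m.det ≠ 0) (hA : A * A' = 1) :
    (fromBlocks m B (-H) (A - H * m⁻¹ * B))⁻¹ =
      fromBlocks (1 : Matrix κ κ ℝ) (-(m⁻¹ * B)) 0 1 * fromBlocks m⁻¹ 0 0 A' *
        fromBlocks (1 : Matrix κ κ ℝ) 0 (H * m⁻¹) 1 := by
  have hu : IsUnit m.det := isUnit_iff_ne_zero.2 hm
  refine inv_eq_right_inv ?_
  rw [block_fac m B H A hm]
  have e1 : fromBlocks (1 : Matrix κ κ ℝ) (m⁻¹ * B) 0 (1 : Matrix ν ν ℝ) *
      fromBlocks (1 : Matrix κ κ ℝ) (-(m⁻¹ * B)) 0 (1 : Matrix ν ν ℝ) = 1 := by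
    rw [fromBlocks_multiply]
    simp
  have e2 : fromBlocks m 0 0 A * fromBlocks m⁻¹ 0 0 A' = 1 := by
    rw [fromBlocks_multiply]
    simp [mul_nonsing_inv _ hu, hA]
  have e3 : fromBlocks (1 : Matrix κ κ ℝ) 0 (-(H * m⁻¹)) (1 : Matrix ν ν ℝ) *
      fromBlocks (1 : Matrix κ κ ℝ) 0 (H * m⁻¹) (1 : Matrix ν ν ℝ) = 1 := by
    rw [fromBlocks_multiply]
    simp
  calc _ = fromBlocks (1 : Matrix κ κ ℝ) 0 (-(H * m⁻¹)) (1 : Matrix ν ν ℝ) *
        (fromBlocks m 0 0 A * (fromBlocks (1 : Matrix κ κ ℝ) (m⁻¹ * B) 0 (1 : Matrix ν ν ℝ) *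
          fromBlocks (1 : Matrix κ κ ℝ) (-(m⁻¹ * B)) 0 (1 : Matrix ν ν ℝ)) *
            fromBlocks m⁻¹ 0 0 A') *
        fromBlocks (1 : Matrix κ κ ℝ) 0 (H * m⁻¹) (1 : Matrix ν ν ℝ) := by
        simp only [Matrix.mul_assoc]
    _ = 1 := by rw [e1, Matrix.mul_one, e2, Matrix.mul_one, e3]

theorem block_inv_bd (m : Matrix κ κ ℝ) (B : Matrix κ ν ℝ) (H : Matrix ν κ ℝ)
    (A A' : Matrix ν ν ℝ) (hm : m.det ≠ 0) (hA : A * A' = 1) (Q : ℝ) (c1 : ℕ) (hQ : 2 ≤ Q)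
    (h1 : Bd m⁻¹ Q) (h2 : Bd B Q) (h3 : Bd H Q) (h4 : Bd A' (Q ^ c1)) :
    Bd (fromBlocks m B (-H) (A - H * m⁻¹ * B))⁻¹ (Q ^ (c1 + 8)) := by
  have hQ0 : (0 : ℝ) ≤ Q := by linarith
  have hQ1 : (1 : ℝ) ≤ Q := by linarith
  rw [block_inv m B H A A' hm hA]
  have b1 : Bd (1 : Matrix κ κ ℝ) (Q ^ 2) := Bd_mono Bd_one (by norm_num) (one_le_pow₀ hQ1)
  have b1' : Bd (1 : Matrix ν ν ℝ) (Q ^ 2) := Bd_mono Bd_one (by norm_num) (one_le_pow₀ hQ1)
  have b2 : Bd (m⁻¹ * B) (Q ^ 2) := by rw [sq]; exact Bd_mul h1 h2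
  have b3 : Bd (H * m⁻¹) (Q ^ 2) := by rw [sq]; exact Bd_mul h3 h1
  have b4 : Bd m⁻¹ (Q ^ (c1 + 1)) := Bd_mono h1 hQ0 (by
    calc Q = Q ^ 1 := (pow_one Q).symm
      _ ≤ _ := pow_le_pow_right₀ hQ1 (by omega))
  have b5 : Bd A' (Q ^ (c1 + 1)) := Bd_mono h4 (by positivity) (pow_le_pow_right₀ hQ1 (by omega))
  have c1' := Bd_fromBlocks b1 (Bd_neg b2) (Bd_zero (α := ν) (β := κ)) b1'
  have c2 := Bd_fromBlocks b4 (Bd_zero (α := κ) (β := ν)) (Bd_zero (α := ν) (β := κ)) b5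
  have c3 := Bd_fromBlocks b1 (Bd_zero (α := κ) (β := ν)) b3 b1'
  refine Bd_mono (Bd_mul (Bd_mul c1' c2) c3) (by positivity) ?_
  calc 2 * Q ^ 2 * (2 * Q ^ (c1 + 1)) * (2 * Q ^ 2)
      ≤ Q * Q ^ 2 * (Q * Q ^ (c1 + 1)) * (Q * Q ^ 2) := by gcongr
    _ = Q ^ (c1 + 8) := by ring

end

theorem mat (hI : IntStmt) : MatStmt := by
  intro c1
  refine ⟨(c1 + 12 + 1) * (2 * (1 + c1)), ?_⟩
  intro C D _ _ _ _ dc d θ e f h S' T' k r J I m Q E hQ bd bθ bf bh be hJ hI' hm bm hr hST hTS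
    _ bT hrr
  have hQ0 : (0 : ℝ) < Q := by linarith
  have hQ1 : (1 : ℝ) ≤ Q := by linarith
  -- blocks
  set A : Matrix (Ev dc) (Ev dc) ℝ := S'.submatrix id E with hAd
  set A' : Matrix (Ev dc) (Ev dc) ℝ := T'.submatrix E id with hA'd
  have hAA : A * A' = 1 := by
    rw [hAd, hA'd, submatrix_mul_equiv, hST]
    simp
  set B : Matrix (Fin k) (Ev dc) ℝ := (cst f).submatrix J (fun x => (E x).1) with hBd
  set H : Matrix (Ev dc) (Fin k) ℝ := (cst h).submatrix Subtype.val I with hHd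
  have iE : Function.Injective (fun x : Ev dc => (E x).1) :=
    Subtype.val_injective.comp E.injective
  have bB : Bd B Q := Bd_submatrix bf J _ hJ iE
  have bH : Bd H Q := Bd_submatrix bh _ I Subtype.val_injective hI'
  set M' := fromBlocks m B (-H) (A - H * m⁻¹ * B) with hM'
  set M : Matrix (Fin k ⊕ Ev dc) (Fin k ⊕ Ev dc) ℤ :=
    fromBlocks (e.submatrix J I) (f.submatrix J (fun x => (E x).1))
      (-(h.submatrix Subtype.val I)) ((d + θ).submatrix Subtype.val (fun x => (E x).1)) with hM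
  have hcM : cst M = fromBlocks (cst (e.submatrix J I)) B (-H)
      ((cst (d + θ)).submatrix Subtype.val (fun x => (E x).1)) := by
    ext i j
    rcases i with i | i <;> rcases j with j | j <;>
      simp [hM, cst, hBd, hHd]
  have hAu : A.det ≠ 0 := by
    intro h0
    have : (A * A').det = 1 := by rw [hAA, det_one]
    rw [det_mul, h0, zero_mul] at this
    exact zero_ne_one this
  have hdet : M'.det = m.det * A.det := block_det m B H A hm
  have hM'0 : M'.det ≠ 0 := by rw [hdet]; exact mul_ne_zero hm hAu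
  have hinv : Bd M'⁻¹ (Q ^ (c1 + 8)) := by
    refine block_inv_bd m B H A A' hm hAA Q c1 hQ bm bB bH ?_
    exact Bd_submatrix bT _ _ E.injective Function.injective_id
  have hMb : Bd (cst M) (Q ^ 3) := by
    rw [hcM]
    have b1 : Bd (cst (e.submatrix J I)) (Q ^ 2) := by
      have : Bd (cst (e.submatrix J I)) Q := Bd_submatrix be J I hJ hI'
      exact Bd_mono this hQ0.le (by nlinarith)
    have b2 : Bd B (Q ^ 2) := Bd_mono bB hQ0.le (by nlinarith)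
    have b3 : Bd (-H) (Q ^ 2) := Bd_neg (Bd_mono bH hQ0.le (by nlinarith))
    have b4 : Bd ((cst (d + θ)).submatrix (Subtype.val : Ev dc → C) (fun x => (E x).1))
        (Q ^ 2) := by
      have b5 : Bd (cst (d + θ)) (Q + Q) := by
        rw [cst_add]; exact Bd_add hQ0.le hQ0.le bd bθ
      exact Bd_mono (Bd_submatrix b5 _ _ Subtype.val_injective iE) (by positivity) (by nlinarith)
    refine Bd_mono (Bd_fromBlocks b1 b2 b3 b4) (by positivity) ?_
    nlinarith [sq_nonneg Q, pow_pos hQ0 2]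
  have hrank : (cst M - M').rank ≤ (1 + c1) * r := by
    have e1 : cst M - M' = fromBlocks (cst (e.submatrix J I) - m) 0 0
        (((cst (d + θ)).submatrix Subtype.val (fun x => (E x).1)) - (A - H * m⁻¹ * B)) := by
      rw [hcM, hM']
      ext i j
      rcases i with i | i <;> rcases j with j | j <;> simp
    rw [e1]
    refine (rank_fromBlocks_le _ _).trans ?_
    have e2 : (((cst (d + θ)).submatrix Subtype.val (fun x => (E x).1)) - (A - H * m⁻¹ * B)) =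
        -((S' - eo dc (cst (d + θ)) - (cst h).submatrix (Subtype.val : Ev dc → C) I * m⁻¹ *
          (cst f).submatrix J (Subtype.val : Od dc → C)).submatrix id E) := by
      have e3 : H * m⁻¹ * B = ((cst h).submatrix (Subtype.val : Ev dc → C) I * m⁻¹ *
          (cst f).submatrix J (Subtype.val : Od dc → C)).submatrix id E := by
        ext i j
        simp only [hBd, hHd, mul_apply, submatrix_apply, id]
      rw [e3]
      ext i j
      simp only [hAd, eo, Matrix.sub_apply, Matrix.neg_apply, submatrix_apply, id]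
      ring
    rw [e2, rank_neg']
    have e4 : ((S' - eo dc (cst (d + θ)) - (cst h).submatrix (Subtype.val : Ev dc → C) I * m⁻¹ *
          (cst f).submatrix J (Subtype.val : Od dc → C)).submatrix id E).rank ≤ c1 * r := by
      refine le_trans ?_ hrr
      exact rank_submatrix_le _ id E
    calc _ ≤ r + c1 * r := add_le_add hr e4
      _ = _ := by ring
  have key := hI _ M M' (Q ^ 3) (Q ^ (c1 + 8)) ((1 + c1) * r) (one_le_pow₀ hQ1)
    (one_le_pow₀ hQ1) hMb hM'0 hinv hrank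
  have hb : 2 + Q ^ (c1 + 8) * (Q ^ 3 + 1) ≤ Q ^ (c1 + 12 + 1) := by
    have h1 : (1 : ℝ) ≤ Q ^ (c1 + 8) := one_le_pow₀ hQ1
    have h2 : (8 : ℝ) ≤ Q ^ 3 := by
      calc (8 : ℝ) = 2 ^ 3 := by norm_num
        _ ≤ Q ^ 3 := by gcongr
    have h3 : Q ^ (c1 + 12 + 1) = Q ^ (c1 + 8) * Q ^ 3 * Q ^ 2 := by ring
    have h4 : (4 : ℝ) ≤ Q ^ 2 := by nlinarith
    rw [h3]
    have h5 : Q ^ (c1 + 8) * Q ^ 3 * 4 ≤ Q ^ (c1 + 8) * Q ^ 3 * Q ^ 2 := by gcongr
    nlinarith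
  have hpos : 0 < |M'.det| := abs_pos.2 hM'0
  have key2 : 1 ≤ |M'.det| * (Q ^ (c1 + 12 + 1)) ^ (2 * ((1 + c1) * r)) := by
    refine key.trans (mul_le_mul_of_nonneg_left ?_ hpos.le)
    exact pow_le_pow_left₀ (by positivity) hb _
  have key3 := Real.log_le_log one_pos key2
  rw [Real.log_one, Real.log_mul hpos.ne' (by positivity), ← pow_mul, Real.log_pow, hdet,
    abs_mul, Real.log_mul (abs_pos.2 hm).ne' (abs_pos.2 hAu).ne'] at key3
  have e5 : (((c1 + 12 + 1) * (2 * ((1 + c1) * r)) : ℕ) : ℝ) * Real.log Q ≤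
      (((c1 + 12 + 1) * (2 * (1 + c1)) : ℕ) : ℝ) * r * Real.log Q := by
    refine le_of_eq ?_
    push_cast
    ring
  linarith
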