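import Pool.Agent.Helper59_LT.Mom1

/-!
# LT, module MOM: the moments of the finite models (helper59)
-/

set_option autoImplicit false

namespace Pool.Agent.LT59

open Matrix Pool.Agent.LT

section gdn

variable {G V : Type} [Group G]

theorem Gd_mono (a : V → G → V) {R R1 : Finset G} (h : R ⊆ R1) : Gd a R1 ⊆ Gd a R :=
  fun _ hv => ⟨hv.1, fun g hg k hk => hv.2.1 g (h hg) k (h hk),
    fun g hg k hk => hv.2.2 g (h hg) k (h hk)⟩

theorem Gdn_sub_Gd (a : V → G → V) (R : Finset G) : ∀ k, Gdn a R k ⊆ Gd a R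
  | 0 => fun _ h => h
  | _ + 1 => fun _ h => h.1

theorem Gdn_mono (a : V → G → V) {R R1 : Finset G} (h : R ⊆ R1) :
    ∀ k, Gdn a R1 k ⊆ Gdn a R k
  | 0 => Gd_mono a h
  | k + 1 => fun _ hv => ⟨Gd_mono a h hv.1, fun g hg => Gdn_mono a h k (hv.2 g (h hg))⟩

theorem Gdn_succ (a : V → G → V) (R : Finset G) : ∀ k, Gdn a R (k + 1) ⊆ Gdn a R k
  | 0 => fun _ hv => hv.1
  | k + 1 => fun _ hv => ⟨hv.1, fun g hg => Gdn_succ a R k (hv.2 g hg)⟩

theorem Gdn_anti (a : V → G → V) (R : Finset G) {j k : ℕ} (h : j ≤ k) :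
    Gdn a R k ⊆ Gdn a R j := by
  induction h with
  | refl => exact fun _ h => h
  | step _ ih => exact (Gdn_succ a R _).trans ih

end gdn

section

variable {G V : Type} [Group G]

theorem mapDomain_apply_sum {A B : Type} [DecidableEq B] (F : A → B) (c : A →₀ ℤ) (w : B) :
    (c.mapDomain F) w = c.sum fun g k => if F g = w then k else 0 := by
  rw [Finsupp.mapDomain, Finsupp.sum_apply]
  exact Finsupp.sum_congr fun g _ => by rw [Finsupp.single_apply]

theorem bet_row [DecidableEq V] (C : Res G) (a : V → G → V) (v : V) (x : C.X) (w : V × C.X) :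
    ((bet a v (C.row x)) w : ℝ) =
      pr (fun g => if a v g = w.1 then 1 else 0) (C.bd x w.2) := by
  unfold bet Res.row
  rw [Finsupp.mapDomain_finsetSum, Finsupp.finsetSum_apply]
  rw [Finset.sum_eq_single w.2]
  · rw [← Finsupp.mapDomain_comp, mapDomain_apply_sum]
    unfold pr Finsupp.sum
    push_cast
    refine Finset.sum_congr rfl fun g _ => ?_
    simp only [Function.comp, mul_ite, mul_one, mul_zero]
    have : ((a v g, w.2) = w) ↔ a v g = w.1 := by
      constructor
      · intro h; rw [← h]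
      · intro h; rw [h]
    simp only [this]
  · intro y _ hy
    rw [← Finsupp.mapDomain_comp, mapDomain_apply_sum]
    unfold Finsupp.sum
    refine Finset.sum_eq_zero fun g _ => ?_
    beta_reduce
    rw [if_neg]
    intro h
    apply hy
    rw [← h]
    rfl
  · intro h; exact absurd (Finset.mem_univ _) h

theorem dV_apply [DecidableEq V] (C : Res G) (a : V → G → V) (R : Finset G) (w v : V × C.X)
    [Decidable (v.1 ∈ Gdn a R (C.dim v.2))] :
    cst (dV C a R) w v = if v.1 ∈ Gdn a R (C.dim v.2) then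
      pr (fun g => if a v.1 g = w.1 then 1 else 0) (C.bd v.2 w.2) else 0 := by
  show ((dV C a R w v : ℤ) : ℝ) = _
  unfold dV
  split_ifs with h
  · exact bet_row C a v.1 v.2 w
  · simp

theorem inv1_coeff (A : MonoidAlgebra ℤ G) (g : G) : (inv1 A).coeff g = A.coeff g⁻¹ := by
  unfold inv1
  rw [MonoidAlgebra.coeff_ofCoeff]
  conv_lhs => rw [← inv_inv g]
  exact Finsupp.mapDomain_apply inv_injective _ _

theorem inv1_supp (A : MonoidAlgebra ℤ G) (g : G) :
    g ∈ (inv1 A).coeff.support ↔ g⁻¹ ∈ A.coeff.support := by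
  rw [Finsupp.mem_support_iff, Finsupp.mem_support_iff, inv1_coeff]

theorem pr_inv1 (χ : G → ℝ) (A : MonoidAlgebra ℤ G) :
    pr χ (inv1 A) = pr (fun g => χ g⁻¹) A := by
  unfold pr inv1
  rw [MonoidAlgebra.coeff_ofCoeff, Finsupp.sum_mapDomain_index (by simp)
    (by intros; push_cast; ring)]

/-- The local description of the differential. -/
theorem Loc_dV [Fintype V] [DecidableEq V] (C : Res G) (a : V → G → V) (R R1 : Finset G) (n : ℕ)
    (hn : ∀ x, C.dim x ≤ n) (hR : R ⊆ R1) (v : V) (hv : v ∈ Gdn a R1 n) :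
    Loc a (cst (dV C a R)) C.bd v := fun x u => by
  classical
  rw [dV_apply, if_pos]
  exact Gdn_mono a hR _ (Gdn_anti a R1 (hn x) hv)

/-- The local description of the transpose of the differential. -/
theorem Loc_dVT [Fintype V] [DecidableEq V] (C : Res G) (a : V → G → V) (R R1 : Finset G) (n : ℕ)
    (hn : ∀ x, C.dim x ≤ n) (hR : R ⊆ R1) (hb : ∀ g, Function.Bijective fun v => a v g)
    (h1 : (1 : G) ∈ R1)
    (hs : ∀ x y, ∀ g ∈ (C.bd x y).coeff.support, g ∈ R1 ∧ g⁻¹ ∈ R1)
    (v : V) (hv : v ∈ Gdn a R1 (n + 1)) :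
    Loc a (cst (dV C a R))ᵀ (adj C.bd) v := fun x u => by
  classical
  have hvG : v ∈ Gd a R1 := hv.1
  have key : ∀ g, g ∈ (C.bd u.2 x).coeff.support → (a u.1 g = v ↔ a v g⁻¹ = u.1) := by
    intro g hg
    have e1 : a (a v g⁻¹) g = v := by
      rw [hvG.2.1 _ (hs _ _ g hg).2 _ (hs _ _ g hg).1, inv_mul_cancel, hvG.1]
    constructor
    · intro h
      refine (hb g).1 ?_
      simp only
      rw [e1, h]
    · intro h
      rw [← h]
      exact e1
  rw [transpose_apply, dV_apply, adj, pr_inv1]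
  simp only
  split_ifs with h
  · exact pr_congr fun g hg => by simp only [key g hg]
  · symm
    unfold pr Finsupp.sum
    refine Finset.sum_eq_zero fun g hg => ?_
    beta_reduce
    rw [if_neg, mul_zero]
    intro h2
    apply h
    rw [← h2]
    exact Gdn_mono a hR _ (Gdn_anti a R1 (hn u.2) (hv.2 _ (hs _ _ g hg).2))

/-- The local description of the Laplacian. -/
theorem Loc_Lp [Fintype V] [DecidableEq V] (C : Res G) (a : V → G → V) (R R1 : Finset G) (n : ℕ)
    (hn : ∀ x, C.dim x ≤ n) (hR : R ⊆ R1) (hb : ∀ g, Function.Bijective fun v => a v g)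
    (h1 : (1 : G) ∈ R1)
    (hs : ∀ x y, ∀ g ∈ (C.bd x y).coeff.support, g ∈ R1 ∧ g⁻¹ ∈ R1)
    (v : V) (hv : v ∈ Gdn a R1 (n + 2)) :
    Loc a (Lp (cst (dV C a R))) C.lap v := by
  have hs' : ∀ x y, ∀ g ∈ (adj C.bd x y).coeff.support, g ∈ R1 ∧ g⁻¹ ∈ R1 := by
    intro x y g hg
    rw [adj, inv1_supp] at hg
    have := hs y x _ hg
    rw [inv_inv] at this
    exact this.symm
  have hvG : v ∈ Gd a R1 := hv.1
  unfold Lp Res.lap
  rw [add_comm (C.bd * adj C.bd)]
  refine Loc_add (Loc_mul ?_ ?_ ?_) (Loc_mul ?_ ?_ ?_)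
  · intro x y g hg
    exact Loc_dV C a R R1 n hn hR _ (Gdn_succ a R1 n (hv.2 g (hs' _ _ g hg).1))
  · exact Loc_dVT C a R R1 n hn hR hb h1 hs v (Gdn_succ a R1 _ hv)
  · intro x y z g hg h hh
    exact hvG.2.1 _ (hs' _ _ g hg).1 _ (hs _ _ h hh).1
  · intro x y g hg
    exact Loc_dVT C a R R1 n hn hR hb h1 hs _ (hv.2 g (hs _ _ g hg).1)
  · exact Loc_dV C a R R1 n hn hR v (Gdn_anti a R1 (by omega) hv)
  · intro x y z g hg h hh
    exact hvG.2.1 _ (hs _ _ g hg).1 _ (hs' _ _ h hh).1

theorem Cs_dV [Fintype V] [DecidableEq V] (C : Res G) (a : V → G → V) (R : Finset G) :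
    Cs (cst (dV C a R)) (∑ x, ∑ y, nrm (C.bd x y)) := fun v => by
  classical
  calc ∑ w, |cst (dV C a R) w v|
      ≤ ∑ y, ∑ w, |pr (fun g => if a v.1 g = w then 1 else 0) (C.bd v.2 y)| := by
        rw [Fintype.sum_prod_type_right]
        refine Finset.sum_le_sum fun y _ => Finset.sum_le_sum fun w _ => ?_
        rw [dV_apply]
        split_ifs
        · exact le_rfl
        · rw [abs_zero]; exact abs_nonneg _
    _ ≤ ∑ y, nrm (C.bd v.2 y) := by
        refine Finset.sum_le_sum fun y _ => sum_abs_pr_le _ _ fun g => ?_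
        refine le_of_eq ?_
        rw [Finset.sum_eq_single (a v.1 g)]
        · simp
        · intro b _ hb
          rw [if_neg (fun h => hb h.symm), abs_zero]
        · intro h; exact absurd (Finset.mem_univ _) h
    _ ≤ _ := Finset.single_le_sum (f := fun x => ∑ y, nrm (C.bd x y))
        (fun x _ => Finset.sum_nonneg fun y _ => nrm_nonneg _) (Finset.mem_univ v.2)

theorem Cs_dVT [Fintype V] [DecidableEq V] (C : Res G) (a : V → G → V) (R : Finset G)
    (hb : ∀ g, Function.Bijective fun v => a v g) :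
    Cs (cst (dV C a R))ᵀ (∑ x, ∑ y, nrm (C.bd x y)) := fun v => by
  classical
  calc ∑ w, |(cst (dV C a R))ᵀ w v|
      ≤ ∑ x, ∑ w, |pr (fun g => if a w g = v.1 then 1 else 0) (C.bd x v.2)| := by
        rw [Fintype.sum_prod_type_right]
        refine Finset.sum_le_sum fun y _ => Finset.sum_le_sum fun w _ => ?_
        rw [transpose_apply, dV_apply]
        split_ifs
        · exact le_rfl
        · rw [abs_zero]; exact abs_nonneg _
    _ ≤ ∑ x, nrm (C.bd x v.2) := by
        refine Finset.sum_le_sum fun x _ => sum_abs_pr_le _ _ fun g => ?_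
        obtain ⟨w0, hw0⟩ := (hb g).2 v.1
        refine le_of_eq ?_
        rw [Finset.sum_eq_single w0]
        · simp only at hw0
          simp [hw0]
        · intro b _ hb'
          rw [if_neg, abs_zero]
          intro h
          exact hb' ((hb g).1 (h.trans hw0.symm))
        · intro h; exact absurd (Finset.mem_univ _) h
    _ ≤ _ := Finset.sum_le_sum fun x _ =>
        Finset.single_le_sum (f := fun y => nrm (C.bd x y))
          (fun y _ => nrm_nonneg _) (Finset.mem_univ v.2)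

end

/-- Reindexing of the cells of degree `p`. -/
def eqP {V X : Type} (dim : X → ℕ) (p : ℕ) :
    {w : V × X // dim w.2 = p} ≃ V × {x // dim x = p} where
  toFun w := (w.1.1, ⟨w.1.2, w.2⟩)
  invFun w := ⟨(w.1, w.2.1), w.2.2⟩
  left_inv _ := rfl
  right_inv _ := rfl

theorem trace_pow_equiv {ι κ : Type} [Fintype ι] [DecidableEq ι] [Fintype κ] [DecidableEq κ]
    (e : ι ≃ κ) (L : Matrix ι ι ℝ) (k : ℕ) :
    (L ^ k).trace = ((L.submatrix e.symm e.symm) ^ k).trace := by
  have h : (L.submatrix e.symm e.symm) ^ k = (L ^ k).submatrix e.symm e.symm := by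
    have := map_pow (reindexAlgEquiv ℝ ℝ e) L k
    rw [coe_reindexAlgEquiv, reindex_apply, reindex_apply] at this
    exact this.symm
  rw [h]
  unfold trace
  simp only [diag_apply, submatrix_apply]
  exact (Equiv.sum_comp e.symm fun i => (L ^ k) i i).symm

theorem mom (hG : GdnStmt) : MomStmt := by
  classical
  intro G _ C R p k
  set n := Finset.univ.sup C.dim with hn
  have hn' : ∀ x, C.dim x ≤ n := fun x => Finset.le_sup (Finset.mem_univ x)
  -- the finite set
  set R1 : Finset G := insert 1 (R ∪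
    (Finset.univ.biUnion fun x : C.X => Finset.univ.biUnion fun y : C.X =>
      (C.bd x y).coeff.support ∪ (C.bd x y).coeff.support.image fun g => g⁻¹) ∪
    (Finset.univ.biUnion fun x : {x // C.dim x = p} =>
      Finset.univ.biUnion fun y : {x // C.dim x = p} =>
        (Finset.range (k + 2)).biUnion fun j => ((C.lapp p ^ j) x y).coeff.support)) with hR1
  have r1 : (1 : G) ∈ R1 := Finset.mem_insert_self _ _
  have r2 : R ⊆ R1 := fun g hg => by
    rw [hR1]
    exact Finset.mem_insert_of_mem (Finset.mem_union_left _ (Finset.mem_union_left _ hg))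
  have r3 : ∀ x y, ∀ g ∈ (C.bd x y).coeff.support, g ∈ R1 ∧ g⁻¹ ∈ R1 := by
    intro x y g hg
    have h : ∀ u, (u = g ∨ u = g⁻¹) → u ∈ R1 := by
      intro u hu
      rw [hR1]
      refine Finset.mem_insert_of_mem (Finset.mem_union_left _ (Finset.mem_union_right _ ?_))
      rw [Finset.mem_biUnion]
      refine ⟨x, Finset.mem_univ _, ?_⟩
      rw [Finset.mem_biUnion]
      refine ⟨y, Finset.mem_univ _, ?_⟩
      rcases hu with rfl | rfl
      · exact Finset.mem_union_left _ hg
      · exact Finset.mem_union_right _ (Finset.mem_image_of_mem _ hg)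
    exact ⟨h g (Or.inl rfl), h _ (Or.inr rfl)⟩
  have r4 : ∀ j ≤ k + 1, ∀ x y, ∀ g ∈ ((C.lapp p ^ j) x y).coeff.support, g ∈ R1 := by
    intro j hj x y g hg
    rw [hR1]
    refine Finset.mem_insert_of_mem (Finset.mem_union_right _ ?_)
    rw [Finset.mem_biUnion]
    refine ⟨x, Finset.mem_univ _, ?_⟩
    rw [Finset.mem_biUnion]
    refine ⟨y, Finset.mem_univ _, ?_⟩
    rw [Finset.mem_biUnion]
    exact ⟨j, Finset.mem_range.2 (by omega), hg⟩
  obtain ⟨R', hR', hgd⟩ := (hG G R1 (n + 3)).2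
  set K1 : ℝ := ∑ x, ∑ y, nrm (C.bd x y) with hK1
  have hK10 : 0 ≤ K1 := Finset.sum_nonneg fun x _ => Finset.sum_nonneg fun y _ => nrm_nonneg _
  set K : ℝ := K1 * K1 + K1 * K1 with hK
  have hK0 : 0 ≤ K := by positivity
  set M0 : ℝ := ∑ x : {x // C.dim x = p}, (K ^ k + |(((C.lapp p ^ k) x x).coeff 1 : ℝ)|) with hM0
  refine ⟨R', ⌈M0⌉₊, ?_⟩
  intro V _ _ a hb
  set L := Lpp (fun v : V × C.X => C.dim v.2) (cst (dV C a R)) p with hL
  set L' := L.submatrix (eqP C.dim p).symm (eqP C.dim p).symm with hL'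
  have t1 : (L ^ k).trace = (L' ^ k).trace := trace_pow_equiv (eqP C.dim p) L k
  have hloc : ∀ v ∈ Gdn a R1 (n + 2), Loc a L' (C.lapp p) v := by
    intro v hv x u
    exact Loc_Lp C a R R1 n hn' r2 hb r1 r3 v hv x.1 (u.1, u.2.1)
  have hpow : ∀ j ≤ k, ∀ v ∈ Gdn a R1 (n + 3), Loc a (L' ^ j) (C.lapp p ^ j) v := by
    intro j
    induction j with
    | zero =>
      intro _ v hv
      rw [pow_zero, pow_zero]
      exact Loc_one (Gdn_sub_Gd a R1 _ hv).1
    | succ j ih =>
      intro hj v hv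
      rw [pow_succ', pow_succ]
      refine Loc_mul ?_ (ih (by omega) v hv) ?_
      · intro x y g hg
        exact hloc _ (hv.2 g (r4 j (by omega) x y g hg))
      · intro x y z g hg h hh
        refine (Gdn_sub_Gd a R1 _ hv).2.1 _ (r4 j (by omega) x y g hg) _ ?_
        refine r4 1 (by omega) y z h ?_
        rw [pow_one]
        exact hh
  have hcs : Cs L' K := by
    intro v
    have h1 : Cs (Lp (cst (dV C a R))) K := by
      have e1 := Cs_dV C a R
      have e2 := Cs_dVT C a R hb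
      exact Cs_add (Cs_mul hK10 e1 e2) (Cs_mul hK10 e2 e1)
    refine le_trans ?_ (h1 (v.1, v.2.1))
    have inj : Function.Injective (fun w : V × {x // C.dim x = p} => ((w.1, w.2.1) : V × C.X)) := by
      rintro ⟨w1, w2, _⟩ ⟨u1, u2, _⟩ h
      simp only [Prod.mk.injEq] at h
      obtain ⟨rfl, rfl⟩ := h
      rfl
    calc ∑ w, |L' w v| = ∑ w ∈ Finset.univ.image
          (fun w : V × {x // C.dim x = p} => ((w.1, w.2.1) : V × C.X)),
            |Lp (cst (dV C a R)) w (v.1, v.2.1)| := by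
          rw [Finset.sum_image fun a _ b _ h => inj h]
          rfl
      _ ≤ _ := Finset.sum_le_sum_of_subset_of_nonneg (Finset.subset_univ _)
          fun i _ _ => abs_nonneg _
  have hdiag : ∀ v ∈ Gd a R', ∀ x, (L' ^ k) (v, x) (v, x) =
      (((C.lapp p ^ k) x x).coeff 1 : ℝ) := by
    intro v hv x
    have hv3 := hgd V a hv
    rw [hpow k le_rfl v hv3 x (v, x), ← pr_one]
    refine pr_congr fun g hg => ?_
    have hvG := Gdn_sub_Gd a R1 _ hv3
    have : a v g = v ↔ g = 1 := by
      constructor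
      · intro h
        refine hvG.2.2 g (r4 k (by omega) x x g hg) 1 r1 ?_
        rw [h, hvG.1]
      · rintro rfl
        exact hvG.1
    simp only [this]
  have hsum : (L ^ k).trace - Fintype.card V * (tr1 (C.lapp p ^ k) : ℝ) =
      ∑ v : V, ∑ x : {x // C.dim x = p},
        ((L' ^ k) (v, x) (v, x) - (((C.lapp p ^ k) x x).coeff 1 : ℝ)) := by
    rw [t1]
    unfold trace tr1
    simp only [diag_apply]
    rw [Fintype.sum_prod_type]
    simp only [Finset.sum_sub_distrib]
    rw [Finset.sum_const, Finset.card_univ, nsmul_eq_mul]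
    push_cast
    rfl
  rw [hsum]
  have hbound : ∀ v : V, |∑ x : {x // C.dim x = p},
        ((L' ^ k) (v, x) (v, x) - (((C.lapp p ^ k) x x).coeff 1 : ℝ))| ≤
      if v ∈ Gd a R' then 0 else M0 := by
    intro v
    split_ifs with hv
    · refine le_of_eq ?_
      rw [Finset.sum_eq_zero fun x _ => by rw [hdiag v hv x, sub_self], abs_zero]
    · refine (Finset.abs_sum_le_sum_abs _ _).trans (Finset.sum_le_sum fun x _ => ?_)
      refine (abs_sub _ _).trans (add_le_add ?_ le_rfl)
      exact Cs_diag (Cs_pow hK0 hcs k) (v, x)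
  refine (Finset.abs_sum_le_sum_abs _ _).trans ((Finset.sum_le_sum fun v _ => hbound v).trans ?_)
  have hcard : ∑ v : V, (if v ∈ Gd a R' then (0 : ℝ) else M0) = nb a R' * M0 := by
    have e1 : ∑ v : V, (if v ∈ Gd a R' then (0 : ℝ) else M0) =
        ∑ v ∈ Finset.univ.filter (fun v => ¬ v ∈ Gd a R'), M0 := by
      rw [Finset.sum_filter]
      refine Finset.sum_congr rfl fun v _ => ?_
      by_cases hv : v ∈ Gd a R' <;> simp [hv]
    rw [e1, Finset.sum_const, nsmul_eq_mul]
    congr 2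
    unfold nb
    rw [Set.ncard_eq_toFinset_card']
    congr 1
    ext v
    simp
  rw [hcard, mul_comm]
  exact mul_le_mul_of_nonneg_right (Nat.le_ceil M0) (Nat.cast_nonneg _)

end Pool.Agent.LT59
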