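import Pool.Agent.Helper59_LT.Tools

/-!
# LT, module MOM, part 1: local description of matrices over finite models (helper59)
-/

set_option autoImplicit false

namespace Pool.Agent.LT59

open Matrix Pool.Agent.LT

section

variable {G : Type}

/-- Pairing of an element of the group ring with a function. -/
noncomputable def pr (χ : G → ℝ) (A : MonoidAlgebra ℤ G) : ℝ :=
  A.coeff.sum fun g c => (c : ℝ) * χ g

/-- The pairing as an additive map. -/
noncomputable def prH (χ : G → ℝ) : MonoidAlgebra ℤ G →+ ℝ where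
  toFun := pr χ
  map_zero' := by simp [pr]
  map_add' A B := by
    unfold pr
    rw [MonoidAlgebra.coeff_add, Finsupp.sum_add_index' (by simp)
      (by intros; push_cast; ring)]

theorem prH_apply (χ : G → ℝ) (A : MonoidAlgebra ℤ G) : prH χ A = pr χ A := rfl

theorem pr_add (χ : G → ℝ) (A B : MonoidAlgebra ℤ G) : pr χ (A + B) = pr χ A + pr χ B :=
  map_add (prH χ) A B

theorem pr_sum {ι : Type} (χ : G → ℝ) (s : Finset ι) (A : ι → MonoidAlgebra ℤ G) :
    pr χ (∑ i ∈ s, A i) = ∑ i ∈ s, pr χ (A i) := map_sum (prH χ) A s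

theorem pr_congr {χ χ' : G → ℝ} {A : MonoidAlgebra ℤ G}
    (h : ∀ g ∈ A.coeff.support, χ g = χ' g) : pr χ A = pr χ' A := by
  unfold pr Finsupp.sum
  exact Finset.sum_congr rfl fun g hg => by simp only [h g hg]

theorem pr_single (χ : G → ℝ) (g : G) (c : ℤ) : pr χ (MonoidAlgebra.single g c) = c * χ g := by
  unfold pr
  rw [MonoidAlgebra.coeff_single, Finsupp.sum_single_index (by simp)]

theorem pr_mul [Mul G] (χ : G → ℝ) (B A : MonoidAlgebra ℤ G) :
    pr χ (B * A) = pr (fun g => pr (fun h => χ (g * h)) A) B := by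
  rw [MonoidAlgebra.mul_def, ← prH_apply, map_finsuppSum]
  unfold pr
  refine Finsupp.sum_congr fun g _ => ?_
  rw [map_finsuppSum]
  unfold Finsupp.sum
  rw [Finset.mul_sum]
  refine Finset.sum_congr rfl fun h _ => ?_
  simp only [prH_apply, pr_single]
  push_cast
  ring

theorem pr_one [One G] (A : MonoidAlgebra ℤ G) [DecidableEq G] :
    pr (fun g => if g = 1 then 1 else 0) A = A.coeff 1 := by
  unfold pr Finsupp.sum
  simp only [mul_ite, mul_one, mul_zero]
  rw [Finset.sum_ite_eq']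
  split_ifs with h
  · rfl
  · rw [Finsupp.notMem_support_iff.1 h]; simp

theorem sum_pr_ite {V : Type} [Fintype V] [DecidableEq V] (F : V → ℝ) (φ : G → V)
    (B : MonoidAlgebra ℤ G) :
    ∑ w, F w * pr (fun g => if φ g = w then 1 else 0) B = pr (fun g => F (φ g)) B := by
  unfold pr Finsupp.sum
  simp only [Finset.mul_sum]
  rw [Finset.sum_comm]
  refine Finset.sum_congr rfl fun g _ => ?_
  simp only [mul_ite, mul_one, mul_zero]
  rw [Finset.sum_ite_eq]
  simp [mul_comm]

/-- The l1 norm. -/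
noncomputable def nrm (A : MonoidAlgebra ℤ G) : ℝ := A.coeff.sum fun _ c => |(c : ℝ)|

theorem nrm_nonneg (A : MonoidAlgebra ℤ G) : 0 ≤ nrm A :=
  Finset.sum_nonneg fun _ _ => abs_nonneg _

theorem sum_abs_pr_le {V : Type} [Fintype V] (χ : V → G → ℝ) (B : MonoidAlgebra ℤ G)
    (h : ∀ g, ∑ w, |χ w g| ≤ 1) : ∑ w, |pr (χ w) B| ≤ nrm B := by
  calc ∑ w, |pr (χ w) B| ≤ ∑ w, ∑ g ∈ B.coeff.support, |(B.coeff g : ℝ)| * |χ w g| := by
        refine Finset.sum_le_sum fun w _ => ?_
        unfold pr Finsupp.sum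
        refine (Finset.abs_sum_le_sum_abs _ _).trans (le_of_eq ?_)
        exact Finset.sum_congr rfl fun g _ => abs_mul _ _
    _ = ∑ g ∈ B.coeff.support, |(B.coeff g : ℝ)| * ∑ w, |χ w g| := by
        rw [Finset.sum_comm]
        exact Finset.sum_congr rfl fun g _ => (Finset.mul_sum _ _ _).symm
    _ ≤ ∑ g ∈ B.coeff.support, |(B.coeff g : ℝ)| * 1 :=
        Finset.sum_le_sum fun g _ => mul_le_mul_of_nonneg_left (h g) (abs_nonneg _)
    _ = nrm B := by simp [nrm, Finsupp.sum]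

end

section

variable {G V X : Type} [Group G] [Fintype V] [DecidableEq V] [Fintype X]

/-- The column of `L` at the point `v` is given by the matrix `A` over the group ring. -/
def Loc (a : V → G → V) (L : Matrix (V × X) (V × X) ℝ) (A : Matrix X X (MonoidAlgebra ℤ G))
    (v : V) : Prop :=
  ∀ (x : X) (u : V × X), L u (v, x) = pr (fun g => if a v g = u.1 then 1 else 0) (A x u.2)

omit [Fintype V] [Fintype X] in
theorem Loc_add {a : V → G → V} {L1 L2 : Matrix (V × X) (V × X) ℝ}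
    {A B : Matrix X X (MonoidAlgebra ℤ G)} {v : V} (h1 : Loc a L1 A v) (h2 : Loc a L2 B v) :
    Loc a (L1 + L2) (A + B) v := fun x u => by
  rw [Matrix.add_apply, Matrix.add_apply, pr_add, h1 x u, h2 x u]

theorem Loc_mul {a : V → G → V} {L1 L2 : Matrix (V × X) (V × X) ℝ}
    {A B : Matrix X X (MonoidAlgebra ℤ G)} {v : V}
    (h1 : ∀ x y, ∀ g ∈ (B x y).coeff.support, Loc a L1 A (a v g)) (h2 : Loc a L2 B v)
    (h3 : ∀ x y z, ∀ g ∈ (B x y).coeff.support, ∀ h ∈ (A y z).coeff.support,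
      a (a v g) h = a v (g * h)) : Loc a (L1 * L2) (B * A) v := fun x u => by
  rw [Matrix.mul_apply, Matrix.mul_apply, pr_sum, Fintype.sum_prod_type_right]
  refine Finset.sum_congr rfl fun y _ => ?_
  rw [pr_mul]
  calc ∑ w, L1 u (w, y) * L2 (w, y) (v, x)
      = ∑ w, L1 u (w, y) * pr (fun g => if a v g = w then 1 else 0) (B x y) :=
        Finset.sum_congr rfl fun w _ => by rw [h2 x (w, y)]
    _ = pr (fun g => L1 u (a v g, y)) (B x y) := sum_pr_ite (fun w => L1 u (w, y)) (a v) _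
    _ = _ := pr_congr fun g hg => by
        rw [h1 x y g hg y u]
        exact pr_congr fun h hh => by rw [h3 x y u.2 g hg h hh]

omit [Fintype V] [Fintype X] in
theorem Loc_one [DecidableEq X] {a : V → G → V} {v : V} (h : a v 1 = v) :
    Loc a (1 : Matrix (V × X) (V × X) ℝ) (1 : Matrix X X (MonoidAlgebra ℤ G)) v := fun x u => by
  rw [Matrix.one_apply, Matrix.one_apply]
  by_cases h2 : x = u.2
  · rw [if_pos h2, MonoidAlgebra.one_def, pr_single, h]
    obtain ⟨u1, u2⟩ := u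
    simp only at h2
    subst h2
    by_cases h3 : v = u1
    · simp [h3]
    · rw [if_neg, if_neg h3]
      · simp
      · intro h4
        exact h3 (Prod.ext_iff.1 h4).1.symm
  · rw [if_neg h2, if_neg]
    · simp [pr]
    · intro h4
      exact h2 (by rw [h4])

/-- Bound of the column sums. -/
def Cs {ι : Type} [Fintype ι] (L : Matrix ι ι ℝ) (K : ℝ) : Prop := ∀ v, ∑ w, |L w v| ≤ K

theorem Cs_mul {ι : Type} [Fintype ι] {L1 L2 : Matrix ι ι ℝ} {K1 K2 : ℝ} (h0 : 0 ≤ K1)
    (h1 : Cs L1 K1) (h2 : Cs L2 K2) : Cs (L1 * L2) (K1 * K2) := fun v => by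
  calc ∑ w, |(L1 * L2) w v| ≤ ∑ w, ∑ u, |L1 w u| * |L2 u v| := by
        refine Finset.sum_le_sum fun w _ => ?_
        rw [Matrix.mul_apply]
        refine (Finset.abs_sum_le_sum_abs _ _).trans (le_of_eq ?_)
        exact Finset.sum_congr rfl fun g _ => abs_mul _ _
    _ = ∑ u, (∑ w, |L1 w u|) * |L2 u v| := by
        rw [Finset.sum_comm]
        exact Finset.sum_congr rfl fun g _ => (Finset.sum_mul _ _ _).symm
    _ ≤ ∑ u, K1 * |L2 u v| :=
        Finset.sum_le_sum fun u _ => mul_le_mul_of_nonneg_right (h1 u) (abs_nonneg _)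
    _ = K1 * ∑ u, |L2 u v| := (Finset.mul_sum _ _ _).symm
    _ ≤ K1 * K2 := mul_le_mul_of_nonneg_left (h2 v) h0

theorem Cs_add {ι : Type} [Fintype ι] {L1 L2 : Matrix ι ι ℝ} {K1 K2 : ℝ}
    (h1 : Cs L1 K1) (h2 : Cs L2 K2) : Cs (L1 + L2) (K1 + K2) := fun v => by
  calc ∑ w, |(L1 + L2) w v| ≤ ∑ w, (|L1 w v| + |L2 w v|) :=
        Finset.sum_le_sum fun w _ => abs_add_le _ _
    _ = ∑ w, |L1 w v| + ∑ w, |L2 w v| := Finset.sum_add_distrib
    _ ≤ K1 + K2 := add_le_add (h1 v) (h2 v)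

theorem Cs_pow {ι : Type} [Fintype ι] [DecidableEq ι] {L : Matrix ι ι ℝ} {K : ℝ} (h0 : 0 ≤ K)
    (h1 : Cs L K) : ∀ k : ℕ, Cs (L ^ k) (K ^ k)
  | 0 => fun v => by
    rw [pow_zero, pow_zero]
    refine le_of_eq ?_
    rw [Finset.sum_eq_single v]
    · simp
    · intro b _ hb
      rw [Matrix.one_apply_ne hb, abs_zero]
    · intro h; exact absurd (Finset.mem_univ v) h
  | k + 1 => by
    rw [pow_succ', pow_succ']
    exact Cs_mul h0 h1 (Cs_pow h0 h1 k)

theorem Cs_diag {ι : Type} [Fintype ι] {L : Matrix ι ι ℝ} {K : ℝ} (h : Cs L K) (v : ι) :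
    |L v v| ≤ K :=
  (Finset.single_le_sum (f := fun w => |L w v|) (fun _ _ => abs_nonneg _)
    (Finset.mem_univ v)).trans (h v)

end

end Pool.Agent.LT59
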