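import Pool.Agent.Helper61_LT.Stmts

/-!
# LT: elementary facts about `Bd` and the rank (helper59)
-/

set_option autoImplicit false

namespace Pool.Agent.LT59

open Matrix Pool.Agent.LT

section

variable {α β γ α' β' ι κ : Type} [Fintype α] [Fintype β] [Fintype γ] [Fintype α'] [Fintype β']
  [Fintype ι] [Fintype κ]

theorem dot_nonneg (x : α → ℝ) : 0 ≤ x ⬝ᵥ x := by
  simp only [dotProduct]
  exact Finset.sum_nonneg fun i _ => mul_self_nonneg _

theorem dot_add_le (x y : α → ℝ) : (x + y) ⬝ᵥ (x + y) ≤ 2 * (x ⬝ᵥ x) + 2 * (y ⬝ᵥ y) := by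
  simp only [dotProduct, Pi.add_apply, Finset.mul_sum]
  rw [← Finset.sum_add_distrib]
  refine Finset.sum_le_sum fun i _ => ?_
  nlinarith [mul_self_nonneg (x i - y i)]

theorem dot_sq_le (x y : α → ℝ) : (x ⬝ᵥ y) ^ 2 ≤ (x ⬝ᵥ x) * (y ⬝ᵥ y) := by
  have := Finset.sum_mul_sq_le_sq_mul_sq Finset.univ x y
  simpa only [dotProduct, sq] using this

theorem Bd_mono {A : Matrix α β ℝ} {K L : ℝ} (h : Bd A K) (hK : 0 ≤ K) (hKL : K ≤ L) :
    Bd A L := fun x =>
  (h x).trans (mul_le_mul_of_nonneg_right (pow_le_pow_left₀ hK hKL 2) (dot_nonneg x))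

theorem Bd_mul {A : Matrix α β ℝ} {B : Matrix β γ ℝ} {K L : ℝ} (hA : Bd A K) (hB : Bd B L) :
    Bd (A * B) (K * L) := fun x => by
  rw [← mulVec_mulVec]
  calc _ ≤ K ^ 2 * ((B *ᵥ x) ⬝ᵥ (B *ᵥ x)) := hA _
    _ ≤ K ^ 2 * (L ^ 2 * (x ⬝ᵥ x)) := mul_le_mul_of_nonneg_left (hB x) (sq_nonneg _)
    _ = _ := by ring

theorem Bd_add {A B : Matrix α β ℝ} {K L : ℝ} (hK : 0 ≤ K) (hL : 0 ≤ L) (hA : Bd A K)
    (hB : Bd B L) : Bd (A + B) (K + L) := fun x => by
  have h1 := hA x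
  have h2 := hB x
  have h3 := dot_sq_le (A *ᵥ x) (B *ᵥ x)
  have hx := dot_nonneg x
  have hn := dot_nonneg (A *ᵥ x)
  have hm := dot_nonneg (B *ᵥ x)
  have h4 : (A *ᵥ x) ⬝ᵥ (B *ᵥ x) ≤ K * L * (x ⬝ᵥ x) := by
    refine abs_le_of_sq_le_sq' ?_ (by positivity) |>.2
    calc _ ≤ _ := h3
      _ ≤ (K ^ 2 * (x ⬝ᵥ x)) * (L ^ 2 * (x ⬝ᵥ x)) := mul_le_mul h1 h2 hm (by positivity)
      _ = _ := by ring
  have h5 : ((A + B) *ᵥ x) ⬝ᵥ ((A + B) *ᵥ x) =
      (A *ᵥ x) ⬝ᵥ (A *ᵥ x) + 2 * ((A *ᵥ x) ⬝ᵥ (B *ᵥ x)) + (B *ᵥ x) ⬝ᵥ (B *ᵥ x) := by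
    rw [add_mulVec, add_dotProduct, dotProduct_add, dotProduct_add,
      dotProduct_comm (B *ᵥ x) (A *ᵥ x)]
    ring
  rw [h5]
  nlinarith

theorem Bd_neg {A : Matrix α β ℝ} {K : ℝ} (hA : Bd A K) : Bd (-A) K := fun x => by
  rw [neg_mulVec, neg_dotProduct, dotProduct_neg, neg_neg]
  exact hA x

theorem Bd_sub {A B : Matrix α β ℝ} {K L : ℝ} (hK : 0 ≤ K) (hL : 0 ≤ L) (hA : Bd A K)
    (hB : Bd B L) : Bd (A - B) (K + L) := by
  rw [sub_eq_add_neg]
  exact Bd_add hK hL hA (Bd_neg hB)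

theorem Bd_one [DecidableEq α] : Bd (1 : Matrix α α ℝ) 1 := fun x => by
  rw [one_mulVec]; simp

theorem Bd_zero {K : ℝ} : Bd (0 : Matrix α β ℝ) K := fun x => by
  rw [zero_mulVec, zero_dotProduct]
  exact mul_nonneg (sq_nonneg _) (dot_nonneg x)

theorem Bd_fromBlocks {A : Matrix α β ℝ} {B : Matrix α β' ℝ} {C : Matrix α' β ℝ}
    {D : Matrix α' β' ℝ} {K : ℝ} (hA : Bd A K) (hB : Bd B K) (hC : Bd C K) (hD : Bd D K) :
    Bd (fromBlocks A B C D) (2 * K) := fun x => by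
  obtain ⟨x1, x2, rfl⟩ : ∃ x1 x2, x = Sum.elim x1 x2 :=
    ⟨x ∘ Sum.inl, x ∘ Sum.inr, (Sum.elim_comp_inl_inr x).symm⟩
  rw [fromBlocks_mulVec, sumElim_dotProduct_sumElim, sumElim_dotProduct_sumElim]
  simp only [Sum.elim_comp_inl, Sum.elim_comp_inr]
  have h1 := dot_add_le (A *ᵥ x1) (B *ᵥ x2)
  have h2 := dot_add_le (C *ᵥ x1) (D *ᵥ x2)
  have := hA x1
  have := hB x2
  have := hC x1
  have := hD x2
  nlinarith

theorem Bd_submatrix {A : Matrix α β ℝ} {K : ℝ} (hA : Bd A K) (J : ι → α) (g : κ → β)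
    (hJ : Function.Injective J) (hg : Function.Injective g) : Bd (A.submatrix J g) K := fun x => by
  classical
  set y : β → ℝ := Function.extend g x 0 with hy
  have e1 : ∀ b, b ∉ Set.range g → y b = 0 := fun b hb => by
    rw [hy, Function.extend_apply' _ _ _ (by simpa using hb)]; rfl
  have e2 : ∀ k, y (g k) = x k := fun k => by rw [hy, hg.extend_apply]
  have h1 : A.submatrix J g *ᵥ x = fun j => (A *ᵥ y) (J j) := by
    funext j
    simp only [mulVec, dotProduct, submatrix_apply]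
    exact Fintype.sum_of_injective g hg _ _ (fun b hb => by rw [e1 b hb, mul_zero])
      (fun k => by rw [e2])
  have h2 : y ⬝ᵥ y = x ⬝ᵥ x := by
    simp only [dotProduct]
    exact (Fintype.sum_of_injective g hg _ _ (fun b hb => by rw [e1 b hb, mul_zero])
      (fun k => by rw [e2])).symm
  have h3 : (fun j => (A *ᵥ y) (J j)) ⬝ᵥ (fun j => (A *ᵥ y) (J j)) ≤ (A *ᵥ y) ⬝ᵥ (A *ᵥ y) := by
    simp only [dotProduct]
    rw [← Finset.sum_image (s := Finset.univ) (g := J)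
      (f := fun a => (A *ᵥ y) a * (A *ᵥ y) a) (fun a _ b _ h => hJ h)]
    exact Finset.sum_le_sum_of_subset_of_nonneg (Finset.subset_univ _)
      fun i _ _ => mul_self_nonneg _
  rw [h1, ← h2]
  exact h3.trans (hA y)

omit [Fintype α] in
theorem rank_add_le' (A B : Matrix α β ℝ) : (A + B).rank ≤ A.rank + B.rank := by
  have h : LinearMap.range (A + B).mulVecLin ≤
      LinearMap.range A.mulVecLin ⊔ LinearMap.range B.mulVecLin := by
    rintro _ ⟨x, rfl⟩
    rw [mulVecLin_add, LinearMap.add_apply]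
    exact Submodule.add_mem_sup ⟨x, rfl⟩ ⟨x, rfl⟩
  exact (Submodule.finrank_mono h).trans (Submodule.finrank_add_le_finrank_add_finrank _ _)

theorem rank_neg' (A : Matrix α β ℝ) : (-A).rank = A.rank := by
  have h : ∀ B : Matrix α β ℝ, (-B).rank ≤ B.rank := fun B => by
    classical
    have : -B = (-1 : Matrix α α ℝ) * B := by
      rw [Matrix.neg_mul, Matrix.one_mul]
    rw [this]
    exact rank_mul_le_right _ _
  refine le_antisymm (h A) ?_
  have := h (-A)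
  rwa [neg_neg] at this

theorem rank_sub_le' (A B : Matrix α β ℝ) : (A - B).rank ≤ A.rank + B.rank := by
  rw [sub_eq_add_neg]
  exact (rank_add_le' _ _).trans (by rw [rank_neg'])

theorem rank_fromBlocks_le (X : Matrix α β ℝ) (Y : Matrix α' β' ℝ) :
    (fromBlocks X 0 0 Y).rank ≤ X.rank + Y.rank := by
  classical
  have h : fromBlocks X 0 0 Y =
      (fromRows (1 : Matrix α α ℝ) (0 : Matrix α' α ℝ)) * (X *
        (fromCols (1 : Matrix β β ℝ) (0 : Matrix β β' ℝ))) +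
      (fromRows (0 : Matrix α α' ℝ) (1 : Matrix α' α' ℝ)) * (Y *
        (fromCols (0 : Matrix β' β ℝ) (1 : Matrix β' β' ℝ))) := by
    rw [mul_fromCols, mul_fromCols, fromRows_mul, fromRows_mul]
    ext i j
    rcases i with i | i <;> rcases j with j | j <;> simp
  rw [h]
  refine (rank_add_le' _ _).trans (add_le_add ?_ ?_)
  · exact (rank_mul_le_right _ _).trans (rank_mul_le_left _ _)
  · exact (rank_mul_le_right _ _).trans (rank_mul_le_left _ _)

omit [Fintype α] [Fintype β] in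
theorem cst_add (A B : Matrix α β ℤ) : cst (A + B) = cst A + cst B := by
  ext i j; simp [cst]

omit [Fintype α] [Fintype β] in
theorem cst_sub (A B : Matrix α β ℤ) : cst (A - B) = cst A - cst B := by
  ext i j; simp [cst]

omit [Fintype α] [Fintype β] in
theorem cst_neg (A : Matrix α β ℤ) : cst (-A) = -cst A := by
  ext i j; simp [cst]

omit [Fintype α] [Fintype γ] in
theorem cst_mul (A : Matrix α β ℤ) (B : Matrix β γ ℤ) : cst (A * B) = cst A * cst B := by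
  ext i j; simp [cst, mul_apply]

end

end Pool.Agent.LT59
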